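import Pool.Agent.Y924.UF.Stm3

/-! # Project UF (helper924): addition of cardinalities by coded relations -/

set_option autoImplicit false

namespace Pool.Agent.Y662.UF

open Pool.Agent.Y924.UF


section

variable {K : Type}

theorem bij_ncard {R : K → K → Prop} {X Y : Set K} (h : Bij R X Y) : X.ncard = Y.ncard := by
  obtain ⟨h1, h2⟩ := h
  choose f hf1 hf2 hf3 using h1
  refine Set.ncard_congr f hf1 ?_ ?_
  · intro a b ha hb hab
    obtain ⟨a0, -, -, h5⟩ := h2 (f a ha) (hf1 a ha)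
    rw [h5 a ha (hf2 a ha), h5 b hb (hab ▸ hf2 b hb)]
  · intro b hb
    obtain ⟨a, ha, hab, -⟩ := h2 b hb
    exact ⟨a, ha, (hf3 a ha b hb hab).symm⟩

theorem bij_congr {R R' : K → K → Prop} {X Y : Set K}
    (h : ∀ a ∈ X, ∀ b ∈ Y, (R a b ↔ R' a b)) (h' : Bij R' X Y) : Bij R X Y := by
  obtain ⟨h1, h2⟩ := h'
  refine ⟨fun a ha => ?_, fun b hb => ?_⟩
  · obtain ⟨b, hb, hab, hu⟩ := h1 a ha
    exact ⟨b, hb, (h a ha b hb).2 hab, fun b' hb' hab' => hu b' hb' ((h a ha b' hb').1 hab')⟩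
  · obtain ⟨a, ha, hab, hu⟩ := h2 b hb
    exact ⟨a, ha, (h a ha b hb).2 hab, fun a' ha' hab' => hu a' ha' ((h a' ha' b hb).1 hab')⟩

theorem exists_bij [Nonempty K] {X Y : Set K} (hX : X.Finite) (hY : Y.Finite)
    (h : X.ncard = Y.ncard) : ∃ R : K → K → Prop, Bij R X Y := by
  have he : X.encard = Y.encard := by
    rw [← hX.cast_ncard_eq, ← hY.cast_ncard_eq, h]
  obtain ⟨f, hf⟩ := hX.exists_bijOn_of_encard_eq he
  refine ⟨fun a b => f a = b, fun a ha => ⟨f a, hf.mapsTo ha, rfl, fun b' _ h => h.symm⟩,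
    fun b hb => ?_⟩
  obtain ⟨a, ha, hab⟩ := hf.surjOn hb
  exact ⟨a, ha, hab, fun a' ha' h => hf.injOn ha' ha (h.trans hab.symm)⟩

end

theorem t_CADD : S_CODE → S_CADD := by
  intro hcode p _ X Y Z hX hY hZ
  constructor
  · rintro ⟨t, u, w, s, s', d, h1, h2⟩
    rw [bij_ncard h1, bij_ncard h2]
    exact Set.ncard_inter_add_ncard_sdiff_eq_ncard Z {c | BB t p u w d c c} hZ
  · intro h
    obtain ⟨D, hDZ, hD⟩ := Set.exists_subset_card_eq (s := Z) (n := X.ncard) (by omega)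
    have hDf : D.Finite := hZ.subset hDZ
    have hZD : (Z \ D).ncard = Y.ncard := by
      have := Set.ncard_sdiff_add_ncard_of_subset hDZ hZ
      omega
    obtain ⟨R1, hR1⟩ := exists_bij hX hDf hD.symm
    obtain ⟨R2, hR2⟩ := exists_bij hY (hZ.subset Set.sdiff_subset) hZD.symm
    obtain ⟨t, u, w, hc⟩ := hcode p (X ∪ Y ∪ Z) ((hX.union hY).union hZ)
    obtain ⟨s, hs⟩ := hc R1
    obtain ⟨s', hs'⟩ := hc R2
    obtain ⟨d, hd⟩ := hc fun a _ => a ∈ D
    have hd' : ∀ c ∈ Z, (BB t p u w d c c ↔ c ∈ D) := fun c hc =>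
      hd c (Or.inr hc) c (Or.inr hc)
    have e1 : {c | c ∈ Z ∧ BB t p u w d c c} = D := by
      ext c
      constructor
      · rintro ⟨h1, h2⟩; exact (hd' c h1).1 h2
      · intro h1; exact ⟨hDZ h1, (hd' c (hDZ h1)).2 h1⟩
    have e2 : {c | c ∈ Z ∧ ¬ BB t p u w d c c} = Z \ D := by
      ext c
      constructor
      · rintro ⟨h1, h2⟩; exact ⟨h1, fun h3 => h2 ((hd' c h1).2 h3)⟩
      · rintro ⟨h1, h2⟩; exact ⟨h1, fun h3 => h2 ((hd' c h1).1 h3)⟩
    refine ⟨t, u, w, s, s', d, ?_, ?_⟩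
    · rw [e1]
      exact bij_congr (fun a ha b hb => hs a (Or.inl (Or.inl ha)) b (Or.inr (hDZ hb))) hR1
    · rw [e2]
      exact bij_congr (fun a ha b hb => hs' a (Or.inl (Or.inr ha)) b (Or.inr hb.1)) hR2

end Pool.Agent.Y662.UF
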